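import Pool.Agent.Lib.MP_709218_gt.D3Bridge
import Pool.Agent.Lib.MP_709218_gt.D3Axis
import Pool.Agent.Lib.MP_709218_gt.D3Genus3

/-!
# MP_709218_gt: simple Borel Anosov representations in dimension three that are not Anosov

The definitions are in `Pool.Agent.Lib.MP_709218_gt.Defs`.

Idea of the proof.  Let `W` be the reflection group of the regular right-angled hexagon, with sides
`r0, z2, r1, z0, r2, z1` in cyclic order.  For `n ≥ 1` a homomorphism from `W` onto a group of
order `4 n` has as kernel a torsion free orientation preserving group `Γ`, a surface group of genus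
`n + 1`.  The representation `ρ` is the restriction to `Γ` of a representation of `W` by six
projective reflections with integral matrices.
* `(r0 r1 r2)²` lies in `Γ` and its matrix has a pair of non-real eigenvalues which dominate the
  third one or are dominated by it: `ρ` is not `1`-Anosov.
* The mirrors crossed by a geodesic are recorded by a canonical word.  If the word contains six
  consecutive letters `r_i r_{i-1} r_{i-2} r_i r_{i-1} r_{i-2}` then the geodesic crosses one of its
  translates by `Γ`.  So these words do not occur on the Birman-Series set.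
* All other canonical words map twenty-one explicit cones of `ℝ³` strictly into each other
  (165 inequalities between integers), which gives the dominated splitting.
-/

open SBA SBA.D3 Matrix

namespace Pool.Agent.Results.MP_709218_gt.SimpleBorelAnosov

/-- every point is at bounded distance from the orbit of the base point -/
theorem exists_radius {Γ : Subgroup (SpecialLinearGroup (Fin 3) ℝ)} (hΓ : IsSurfaceGroup Γ) :
    ∃ r : ℝ, ∀ x ∈ Hyp, ∃ g ∈ Γ, hd (g.1 *ᵥ e2) x ≤ r := by
  obtain ⟨K, hK, hKc, hcov⟩ := hΓ.cocompact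
  have hcont : ContinuousOn (fun x : V3 => hd e2 x) K :=
    continuousOn_hd.comp (continuousOn_const.prodMk continuousOn_id) fun x hx => ⟨e2_mem, hK hx⟩
  obtain ⟨r, hr⟩ := (hKc.image_of_continuousOn hcont).bddAbove
  refine ⟨r, fun x hx => ?_⟩
  obtain ⟨g, hg, hgx⟩ := hcov x hx
  refine ⟨g⁻¹, inv_mem hg, ?_⟩
  have h1 : hd e2 (g.1 *ᵥ x) ≤ r := hr ⟨_, hgx, rfl⟩
  have h2 : g.1 *ᵥ ((g⁻¹).1 *ᵥ e2) = e2 := by
    rw [Matrix.mulVec_mulVec]
    have : g.1 * (g⁻¹).1 = (g * g⁻¹).1 := rfl
    rw [this, mul_inv_cancel]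
    exact Matrix.one_mulVec e2
  have h3 : hd ((g⁻¹).1 *ᵥ e2) x = hd e2 (g.1 *ᵥ x) := by
    unfold hd
    rw [← hΓ.lor_eq g hg ((g⁻¹).1 *ᵥ e2) x, h2]
  rw [h3]; exact h1

/-- **For every genus `g ≥ 2` there are a closed hyperbolic surface of genus `g` with group `Γ` and
a representation `ρ : Γ → SL(3, ℂ)` which is simple Borel Anosov (`1`- and `2`-Anosov in
restriction to the Birman-Series set) but not `1`-Anosov, hence not Borel Anosov.** -/
theorem result (g : ℕ) (hg : 2 ≤ g) :
    ∃ Γ : Subgroup (SpecialLinearGroup (Fin 3) ℝ), IsSurfaceGroup Γ ∧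
      Module.finrank ℝ (Additive Γ →+ ℝ) = 2 * g ∧ (F0 Γ).Nonempty ∧
      ∃ ρ : Γ →* SpecialLinearGroup (Fin 3) ℂ,
        (∀ k : ℕ, 1 ≤ k → k ≤ 2 → KAnosovOn Γ ρ k (F0 Γ)) ∧ ¬ KAnosovOn Γ ρ 1 UT := by
  obtain ⟨n, rfl⟩ : ∃ n, g = n + 1 := ⟨g - 1, by omega⟩
  have : NeZero n := ⟨by omega⟩
  have hΓ := (hexS n).isSurfaceGroup
  refine ⟨(hexS n).Γ, hΓ, finrank_hexS n, hexS_nonempty n, cplx (rhoR n), ?_, not_anosov n⟩
  obtain ⟨r, hr⟩ := exists_radius hΓ
  obtain ⟨C, c, hc, hgood⟩ := exists_goodOn (n := n) (r + 1)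
  have h := kAnosov_of_goodOn hΓ (rhoR n) (hexS n).NCset (fun y hy => hy.1)
    (fun y hy t => (hexS n).NCset_flow hy t) (fun y hy γ hγ => (hexS n).NCset_mact hy hγ)
    (fun y hy => (hexS n).NCset_rev hy) r hr C c hc hgood
  intro k hk1 hk2
  obtain rfl | rfl : k = 1 ∨ k = 2 := by omega
  · exact h.1.mono (hexS n).F0_subset_NCset
  · exact h.2.mono (hexS n).F0_subset_NCset

end Pool.Agent.Results.MP_709218_gt.SimpleBorelAnosov
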